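import Mathlib
import Pool.Agent.Helper256.KM.Mertens

/-!
Project AM (MP_157626_nt), part BAD, arithmetic: the number of the `n ≤ T` with an atypical number of
prime factors is at most `C T / (log T) ^ (1 / 72)`.
-/

set_option autoImplicit false

namespace Pool.Agent.L7h50.AM

open Finset ArithmeticFunction

/-- the primes up to `T` -/
def PP (T : ℕ) : Finset ℕ := (Icc 1 T).filter Nat.Prime

theorem prod_le_exp (T : ℕ) (τ : ℝ) (hτ : 0 ≤ τ) :
    ∏ p ∈ PP T, (1 + τ / (p : ℝ)) ≤ Real.exp (τ * ∑ p ∈ PP T, (1 : ℝ) / p) := by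
  rw [Finset.mul_sum, Real.exp_sum]
  refine Finset.prod_le_prod (fun p _ => by positivity) (fun p _ => ?_)
  have := Real.add_one_le_exp (τ * (1 / (p : ℝ)))
  calc 1 + τ / (p : ℝ) = τ * (1 / (p : ℝ)) + 1 := by ring
    _ ≤ _ := this

/-- the upper tail: the moment for `ρ = 1 + τ` -/
theorem upper (T : ℕ) (τ : ℝ) (hτ : 0 ≤ τ) :
    ∑ n ∈ Icc 1 T, (1 + τ) ^ n.primeFactors.card ≤ T * ∏ p ∈ PP T, (1 + τ / (p : ℝ)) := by
  classical
  have e1 : ∀ n ∈ Icc 1 T, (1 + τ) ^ n.primeFactors.card =
      ∑ S ∈ (PP T).powerset, if S ⊆ n.primeFactors then τ ^ S.card else 0 := by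
    intro n hn
    rw [Finset.mem_Icc] at hn
    have hsub : n.primeFactors ⊆ PP T := by
      intro p hp
      have hp' := Nat.prime_of_mem_primeFactors hp
      have hpd := Nat.dvd_of_mem_primeFactors hp
      unfold PP
      rw [Finset.mem_filter, Finset.mem_Icc]
      exact ⟨⟨hp'.one_lt.le, (Nat.le_of_dvd (by omega) hpd).trans hn.2⟩, hp'⟩
    have e2 : (1 + τ) ^ n.primeFactors.card = ∑ S ∈ n.primeFactors.powerset, τ ^ S.card := by
      have := Finset.prod_one_add (f := fun _ : ℕ => τ) n.primeFactors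
      rw [Finset.prod_const] at this
      rw [this]
      refine Finset.sum_congr rfl ?_
      intro S _
      rw [Finset.prod_const]
    rw [e2, ← Finset.sum_filter]
    refine Finset.sum_congr ?_ (fun _ _ => rfl)
    ext S
    rw [Finset.mem_filter, Finset.mem_powerset, Finset.mem_powerset]
    exact ⟨fun h => ⟨h.trans hsub, h⟩, fun h => h.2⟩
  rw [Finset.sum_congr rfl e1, Finset.sum_comm, Finset.prod_one_add, Finset.mul_sum]
  refine Finset.sum_le_sum ?_
  intro S hS
  rw [Finset.mem_powerset] at hS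
  have hSp : ∀ p ∈ S, p.Prime := fun p hp => (Finset.mem_filter.mp (hS hp)).2
  rw [← Finset.sum_filter, Finset.sum_const, nsmul_eq_mul]
  have hprod : 0 < ∏ p ∈ S, p := Finset.prod_pos fun p hp => (hSp p hp).pos
  have hcard : (((Icc 1 T).filter (fun n => S ⊆ n.primeFactors)).card : ℝ) ≤
      (T : ℝ) / ((∏ p ∈ S, p : ℕ) : ℝ) := by
    have h1 : ((Icc 1 T).filter (fun n => S ⊆ n.primeFactors)).card ≤ T / (∏ p ∈ S, p) := by
      rw [← Nat.Ioc_filter_dvd_card_eq_div]
      refine Finset.card_le_card ?_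
      intro n hn
      rw [Finset.mem_filter, Finset.mem_Icc] at hn
      rw [Finset.mem_filter, Finset.mem_Ioc]
      refine ⟨⟨by omega, hn.1.2⟩, ?_⟩
      exact Finset.prod_primes_dvd n (fun p hp => (hSp p hp).prime)
        (fun p hp => Nat.dvd_of_mem_primeFactors (hn.2 hp))
    have h2 : ((T / (∏ p ∈ S, p) : ℕ) : ℝ) ≤ (T : ℝ) / ((∏ p ∈ S, p : ℕ) : ℝ) := Nat.cast_div_le
    exact (by exact_mod_cast h1 : (((Icc 1 T).filter (fun n => S ⊆ n.primeFactors)).card : ℝ) ≤
      ((T / (∏ p ∈ S, p) : ℕ) : ℝ)).trans h2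
  have e3 : ∏ p ∈ S, (τ / (p : ℝ)) = τ ^ S.card / ((∏ p ∈ S, p : ℕ) : ℝ) := by
    rw [Finset.prod_div_distrib, Finset.prod_const]
    push_cast
    rfl
  rw [e3]
  calc (((Icc 1 T).filter (fun n => S ⊆ n.primeFactors)).card : ℝ) * τ ^ S.card ≤
      (T : ℝ) / ((∏ p ∈ S, p : ℕ) : ℝ) * τ ^ S.card :=
        mul_le_mul_of_nonneg_right hcard (by positivity)
    _ = _ := by ring

/-- sum over the squarefree numbers -/
theorem sqf_sum (T : ℕ) (τ : ℝ) (hτ : 0 ≤ τ) :
    ∑ b ∈ (Icc 1 T).filter Squarefree, τ ^ b.primeFactors.card / (b : ℝ) ≤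
      ∏ p ∈ PP T, (1 + τ / (p : ℝ)) := by
  classical
  rw [Finset.prod_one_add]
  have e1 : ∀ b ∈ (Icc 1 T).filter Squarefree, τ ^ b.primeFactors.card / (b : ℝ) =
      ∏ p ∈ b.primeFactors, (τ / (p : ℝ)) := by
    intro b hb
    rw [Finset.mem_filter] at hb
    rw [Finset.prod_div_distrib, Finset.prod_const]
    congr 1
    have := Nat.prod_primeFactors_of_squarefree hb.2
    rw [← Nat.cast_prod, this]
  have hinj : Set.InjOn (fun b : ℕ => b.primeFactors) ((Icc 1 T).filter Squarefree : Finset ℕ) := by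
    intro b hb b' hb' h
    rw [Finset.mem_coe, Finset.mem_filter] at hb hb'
    have h1 := Nat.prod_primeFactors_of_squarefree hb.2
    have h2 := Nat.prod_primeFactors_of_squarefree hb'.2
    simp only at h
    rw [← h1, ← h2, h]
  rw [Finset.sum_congr rfl e1, ← Finset.sum_image (f := fun S : Finset ℕ => ∏ p ∈ S, (τ / (p : ℝ))) hinj]
  refine Finset.sum_le_sum_of_subset_of_nonneg ?_ ?_
  · intro S hS
    rw [Finset.mem_image] at hS
    obtain ⟨b, hb, rfl⟩ := hS
    rw [Finset.mem_filter, Finset.mem_Icc] at hb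
    rw [Finset.mem_powerset]
    intro p hp
    have hp' := Nat.prime_of_mem_primeFactors hp
    have hpd := Nat.dvd_of_mem_primeFactors hp
    unfold PP
    rw [Finset.mem_filter, Finset.mem_Icc]
    exact ⟨⟨hp'.one_lt.le, (Nat.le_of_dvd (by omega) hpd).trans hb.1.2⟩, hp'⟩
  · intro S _ _
    exact Finset.prod_nonneg fun p _ => by positivity

/-- the logarithmic sum for `τ ≤ 1` -/
theorem log_sum (T : ℕ) (τ : ℝ) (hτ : 0 ≤ τ) (hτ1 : τ ≤ 1) :
    ∑ m ∈ Icc 1 T, τ ^ m.primeFactors.card / (m : ℝ) ≤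
      (∑' n : ℕ, (1 : ℝ) / (n : ℝ) ^ 2) * ∏ p ∈ PP T, (1 + τ / (p : ℝ)) := by
  classical
  have hs : Summable (fun n : ℕ => (1 : ℝ) / (n : ℝ) ^ 2) :=
    Real.summable_one_div_nat_pow.2 (by norm_num)
  have hch : ∀ m : ℕ, ∃ q : ℕ × ℕ, 0 < m → 0 < q.1 ∧ 0 < q.2 ∧ q.2 ^ 2 * q.1 = m ∧
      Squarefree q.1 := by
    intro m
    by_cases hm : 0 < m
    · obtain ⟨a, b, h1, h2, h3, h4⟩ := Nat.sq_mul_squarefree_of_pos hm
      exact ⟨(a, b), fun _ => ⟨h1, h2, h3, h4⟩⟩
    · exact ⟨(0, 0), fun h => absurd h hm⟩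
  choose g hg using hch
  have e1 : ∑ m ∈ Icc 1 T, τ ^ m.primeFactors.card / (m : ℝ) ≤
      ∑ m ∈ Icc 1 T, (1 / ((g m).2 : ℝ) ^ 2) *
        (τ ^ (g m).1.primeFactors.card / ((g m).1 : ℝ)) := by
    refine Finset.sum_le_sum ?_
    intro m hm
    rw [Finset.mem_Icc] at hm
    obtain ⟨h1, h2, h3, h4⟩ := hg m hm.1
    have hle : τ ^ m.primeFactors.card ≤ τ ^ (g m).1.primeFactors.card := by
      apply pow_le_pow_of_le_one hτ hτ1
      apply Finset.card_le_card
      exact Nat.primeFactors_mono ⟨(g m).2 ^ 2, h3.symm.trans (mul_comm _ _)⟩ (by omega)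
    have h5 : ((m : ℕ) : ℝ) = ((g m).2 : ℝ) ^ 2 * ((g m).1 : ℝ) := by exact_mod_cast h3.symm
    calc τ ^ m.primeFactors.card / (m : ℝ) ≤ τ ^ (g m).1.primeFactors.card / (m : ℝ) :=
          div_le_div_of_nonneg_right hle (by positivity)
      _ = _ := by
          rw [h5]
          field_simp
  have hinj : Set.InjOn g (Icc 1 T : Finset ℕ) := by
    intro m hm m' hm' h
    rw [Finset.mem_coe, Finset.mem_Icc] at hm hm'
    have h1 := (hg m hm.1).2.2.1
    have h2 := (hg m' hm'.1).2.2.1
    rw [← h1, ← h2, h]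
  have e2 : ∑ m ∈ Icc 1 T, (1 / ((g m).2 : ℝ) ^ 2) *
        (τ ^ (g m).1.primeFactors.card / ((g m).1 : ℝ)) =
      ∑ q ∈ (Icc 1 T).image g, (1 / (q.2 : ℝ) ^ 2) * (τ ^ q.1.primeFactors.card / (q.1 : ℝ)) := by
    rw [Finset.sum_image hinj]
  have e3 : ∑ q ∈ (Icc 1 T).image g, (1 / (q.2 : ℝ) ^ 2) *
      (τ ^ q.1.primeFactors.card / (q.1 : ℝ)) ≤
      ∑ q ∈ ((Icc 1 T).filter Squarefree) ×ˢ (Icc 1 T), (1 / (q.2 : ℝ) ^ 2) *
        (τ ^ q.1.primeFactors.card / (q.1 : ℝ)) := by
    refine Finset.sum_le_sum_of_subset_of_nonneg ?_ ?_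
    · intro q hq
      rw [Finset.mem_image] at hq
      obtain ⟨m, hm, rfl⟩ := hq
      rw [Finset.mem_Icc] at hm
      obtain ⟨h1, h2, h3, h4⟩ := hg m hm.1
      rw [Finset.mem_product, Finset.mem_filter, Finset.mem_Icc, Finset.mem_Icc]
      have h5 : (g m).1 ≤ m := by
        calc (g m).1 ≤ (g m).2 ^ 2 * (g m).1 := Nat.le_mul_of_pos_left _ (by positivity)
          _ = m := h3
      have h6 : (g m).2 ≤ m := by
        calc (g m).2 ≤ (g m).2 ^ 2 := Nat.le_self_pow (by norm_num) _
          _ ≤ (g m).2 ^ 2 * (g m).1 := Nat.le_mul_of_pos_right _ h1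
          _ = m := h3
      exact ⟨⟨⟨h1, by omega⟩, h4⟩, h2, by omega⟩
    · intro q _ _
      positivity
  refine e1.trans (e2.le.trans (e3.trans ?_))
  rw [Finset.sum_product]
  simp only [← Finset.sum_mul]
  rw [← Finset.mul_sum]
  refine mul_le_mul ?_ (sqf_sum T τ hτ) (Finset.sum_nonneg fun _ _ => by positivity)
    (tsum_nonneg fun _ => by positivity)
  exact hs.sum_le_tsum _ (fun n _ => by positivity)

/-- the lower tail: Hall and Tenenbaum's argument -/
theorem lower (T : ℕ) (hT : 1 ≤ T) (τ : ℝ) (hτ : 0 ≤ τ) (hτ1 : τ ≤ 1) :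
    (∑ n ∈ Icc 1 T, τ ^ n.primeFactors.card) * Real.log T ≤
      (1 + (Real.log 4 + 4)) * T * ∑ m ∈ Icc 1 T, τ ^ m.primeFactors.card / (m : ℝ) := by
  classical
  have hT0 : (0 : ℝ) < T := by exact_mod_cast hT
  have hmono : ∀ m n : ℕ, m ∣ n → n ≠ 0 → τ ^ n.primeFactors.card ≤ τ ^ m.primeFactors.card := by
    intro m n h hn
    exact pow_le_pow_of_le_one hτ hτ1 (Finset.card_le_card (Nat.primeFactors_mono h hn))
  have e1 : (∑ n ∈ Icc 1 T, τ ^ n.primeFactors.card) * Real.log T =
      ∑ n ∈ Icc 1 T, τ ^ n.primeFactors.card * Real.log (T / n) +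
        ∑ n ∈ Icc 1 T, τ ^ n.primeFactors.card * Real.log n := by
    rw [Finset.sum_mul, ← Finset.sum_add_distrib]
    refine Finset.sum_congr rfl ?_
    intro n hn
    rw [Finset.mem_Icc] at hn
    have hn0 : (n : ℝ) ≠ 0 := by
      have : n ≠ 0 := by omega
      exact_mod_cast this
    rw [Real.log_div hT0.ne' hn0]
    ring
  have e2 : ∑ n ∈ Icc 1 T, τ ^ n.primeFactors.card * Real.log (T / n) ≤
      T * ∑ m ∈ Icc 1 T, τ ^ m.primeFactors.card / (m : ℝ) := by
    rw [Finset.mul_sum]
    refine Finset.sum_le_sum ?_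
    intro n hn
    rw [Finset.mem_Icc] at hn
    have hn0 : (0 : ℝ) < n := by
      have : 0 < n := by omega
      exact_mod_cast this
    have h1 := Real.log_le_sub_one_of_pos (div_pos hT0 hn0)
    have h2 : 0 ≤ τ ^ n.primeFactors.card := by positivity
    calc τ ^ n.primeFactors.card * Real.log (T / n) ≤ τ ^ n.primeFactors.card * (T / n) :=
          mul_le_mul_of_nonneg_left (by linarith) h2
      _ = _ := by ring
  let h : ℕ × ℕ → ℝ := fun p => τ ^ p.2.primeFactors.card * vonMangoldt p.1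
  have hh0 : ∀ p, 0 ≤ h p := fun p => by
    have h2 : 0 ≤ vonMangoldt p.1 := vonMangoldt_nonneg
    simp only [h]
    positivity
  have e3 : ∑ n ∈ Icc 1 T, τ ^ n.primeFactors.card * Real.log n ≤
      (Real.log 4 + 4) * T * ∑ m ∈ Icc 1 T, τ ^ m.primeFactors.card / (m : ℝ) := by
    calc ∑ n ∈ Icc 1 T, τ ^ n.primeFactors.card * Real.log n ≤
          ∑ n ∈ Icc 1 T, ∑ p ∈ n.divisorsAntidiagonal, h p := by
          apply Finset.sum_le_sum
          intro n hn
          rw [Finset.mem_Icc] at hn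
          calc τ ^ n.primeFactors.card * Real.log n =
                ∑ q ∈ n.divisors, vonMangoldt q * τ ^ n.primeFactors.card := by
                rw [← vonMangoldt_sum, Finset.mul_sum]
                exact Finset.sum_congr rfl fun _ _ => mul_comm _ _
            _ = ∑ p ∈ n.divisorsAntidiagonal, vonMangoldt p.1 * τ ^ n.primeFactors.card := by
                rw [← Nat.map_div_right_divisors, Finset.sum_map]
                rfl
            _ ≤ ∑ p ∈ n.divisorsAntidiagonal, h p := by
                apply Finset.sum_le_sum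
                rintro ⟨q, m⟩ hp
                rw [Nat.mem_divisorsAntidiagonal] at hp
                simp only at hp
                obtain ⟨hqm, hn0⟩ := hp
                simp only [h]
                rw [mul_comm (vonMangoldt q)]
                exact mul_le_mul_of_nonneg_right (hmono m n ⟨q, by rw [← hqm]; ring⟩ hn0)
                  vonMangoldt_nonneg
      _ = ∑ p ∈ (Icc 1 T).biUnion (fun n => n.divisorsAntidiagonal), h p := by
          rw [Finset.sum_biUnion]
          intro a _ b _ hab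
          simp only [Function.onFun]
          rw [Finset.disjoint_left]
          intro p hp hp'
          rw [Nat.mem_divisorsAntidiagonal] at hp hp'
          exact hab (hp.1.symm.trans hp'.1)
      _ ≤ ∑ p ∈ (Icc 1 T ×ˢ Icc 1 T).filter (fun p : ℕ × ℕ => p.1 * p.2 ≤ T), h p := by
          apply Finset.sum_le_sum_of_subset_of_nonneg
          · intro p hp
            rw [Finset.mem_biUnion] at hp
            obtain ⟨n, hn, hp⟩ := hp
            rw [Nat.mem_divisorsAntidiagonal] at hp
            obtain ⟨hpn, hn0⟩ := hp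
            rw [Finset.mem_Icc] at hn
            have hq0 : p.1 ≠ 0 := by intro h; rw [h] at hpn; simp at hpn; omega
            have hm0 : p.2 ≠ 0 := by intro h; rw [h] at hpn; simp at hpn; omega
            rw [Finset.mem_filter, Finset.mem_product, Finset.mem_Icc, Finset.mem_Icc]
            have h1 : p.1 ≤ p.1 * p.2 := Nat.le_mul_of_pos_right _ (Nat.pos_of_ne_zero hm0)
            have h2 : p.2 ≤ p.1 * p.2 := Nat.le_mul_of_pos_left _ (Nat.pos_of_ne_zero hq0)
            exact ⟨⟨⟨Nat.pos_of_ne_zero hq0, by omega⟩, ⟨Nat.pos_of_ne_zero hm0, by omega⟩⟩,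
              by omega⟩
          · intro p _ _
            exact hh0 p
      _ = ∑ m ∈ Icc 1 T, ∑ q ∈ (Icc 1 T).filter (fun q => q * m ≤ T), h (q, m) := by
          rw [Finset.sum_filter, Finset.sum_product_right]
          refine Finset.sum_congr rfl fun m _ => ?_
          rw [Finset.sum_filter]
      _ ≤ ∑ m ∈ Icc 1 T, (Real.log 4 + 4) * T * (τ ^ m.primeFactors.card / (m : ℝ)) := by
          apply Finset.sum_le_sum
          intro m hm
          rw [Finset.mem_Icc] at hm
          have hm0 : (0 : ℝ) < m := by exact_mod_cast hm.1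
          simp only [h]
          rw [← Finset.mul_sum]
          have h1 : ∑ q ∈ (Icc 1 T).filter (fun q => q * m ≤ T), vonMangoldt q ≤
              (Real.log 4 + 4) * ((T : ℝ) / m) := by
            refine le_trans ?_ (Chebyshev.psi_le_const_mul_self (x := (T : ℝ) / m) (by positivity))
            unfold Chebyshev.psi
            apply Finset.sum_le_sum_of_subset_of_nonneg
            · intro q hq
              rw [Finset.mem_filter, Finset.mem_Icc] at hq
              rw [Finset.mem_Ioc]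
              refine ⟨hq.1.1, Nat.le_floor ?_⟩
              rw [le_div_iff₀ hm0]
              exact_mod_cast hq.2
            · intro q _ _
              exact vonMangoldt_nonneg
          calc τ ^ m.primeFactors.card * ∑ q ∈ (Icc 1 T).filter (fun q => q * m ≤ T), vonMangoldt q
              ≤ τ ^ m.primeFactors.card * ((Real.log 4 + 4) * ((T : ℝ) / m)) :=
                mul_le_mul_of_nonneg_left h1 (by positivity)
            _ = _ := by ring
      _ = _ := by rw [← Finset.mul_sum]
  rw [e1]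
  calc _ ≤ T * ∑ m ∈ Icc 1 T, τ ^ m.primeFactors.card / (m : ℝ) +
        (Real.log 4 + 4) * T * ∑ m ∈ Icc 1 T, τ ^ m.primeFactors.card / (m : ℝ) := add_le_add e2 e3
    _ = _ := by ring

/-- a typical number of prime factors -/
def Typ (T n : ℕ) : Prop :=
  3 / 4 * Real.log (Real.log T) ≤ n.primeFactors.card ∧
    (n.primeFactors.card : ℝ) ≤ 5 / 4 * Real.log (Real.log T)

open Classical in
/-- atypical numbers are rare -/
theorem rare : ∃ C : ℝ, 0 ≤ C ∧ ∀ T : ℕ, 3 ≤ T →
    (((Icc 1 T).filter (fun n => ¬ Typ T n)).card : ℝ) ≤ C * T * Real.log T ^ (-(1 / 72) : ℝ) := by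
  obtain ⟨C₀, hC₀⟩ := Pool.Agent.Helper256.KM.mertens_inv
  set Z2 : ℝ := ∑' n : ℕ, (1 : ℝ) / (n : ℝ) ^ 2 with hZ2
  have hZ20 : 0 ≤ Z2 := tsum_nonneg fun _ => by positivity
  have hl4 : 0 < Real.log 4 := Real.log_pos (by norm_num)
  set A₁ : ℝ := Real.exp (1 / 8 * C₀) with hA₁
  set A₂ : ℝ := (1 + (Real.log 4 + 4)) * (Z2 * Real.exp (7 / 8 * C₀)) with hA₂
  have hA₁0 : 0 < A₁ := Real.exp_pos _
  have hA₂0 : 0 ≤ A₂ := by positivity
  refine ⟨A₁ + A₂, by positivity, ?_⟩
  intro T hT
  have hT0 : (0 : ℝ) < T := by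
    have : 0 < T := by omega
    exact_mod_cast this
  have hT3 : (3 : ℝ) ≤ T := by exact_mod_cast hT
  have hlog1 : 1 ≤ Real.log T := by
    rw [Real.le_log_iff_exp_le hT0]
    have := Real.exp_one_lt_d9
    linarith
  have hlog0 : 0 < Real.log T := by linarith
  set L : ℝ := Real.log (Real.log T) with hL
  have hL0 : 0 ≤ L := Real.log_nonneg hlog1
  have hexpL : Real.exp L = Real.log T := Real.exp_log hlog0
  have hpow : Real.log T ^ (-(1 / 72) : ℝ) = Real.exp (-(1 / 72) * L) := by
    rw [Real.rpow_def_of_pos hlog0]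
    congr 1
    ring
  have hmert : ∑ p ∈ PP T, (1 : ℝ) / p ≤ L + C₀ := by
    have := (abs_le.1 (hC₀ T hT)).2
    unfold PP
    linarith
  rw [hpow]
  -- upper tail
  have hup : (((Icc 1 T).filter (fun n => 5 / 4 * L < (n.primeFactors.card : ℝ))).card : ℝ) ≤
      A₁ * T * Real.exp (-(1 / 72) * L) := by
    have hlg : (1 : ℝ) / 9 ≤ Real.log (9 / 8) := by
      have := Real.one_sub_inv_le_log_of_pos (by norm_num : (0 : ℝ) < 9 / 8)
      linarith
    have h1 : (((Icc 1 T).filter (fun n => 5 / 4 * L < (n.primeFactors.card : ℝ))).card : ℝ) ≤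
        ∑ n ∈ Icc 1 T, (1 + 1 / 8 : ℝ) ^ n.primeFactors.card *
          Real.exp (-(5 / 4 * L * Real.log (9 / 8))) := by
      rw [Finset.card_eq_sum_ones]
      push_cast
      rw [Finset.sum_filter]
      refine Finset.sum_le_sum ?_
      intro n _
      split_ifs with h
      · have e : (1 + 1 / 8 : ℝ) ^ n.primeFactors.card =
            Real.exp (n.primeFactors.card * Real.log (9 / 8)) := by
          rw [Real.exp_nat_mul, Real.exp_log (by norm_num)]
          norm_num
        rw [e, ← Real.exp_add]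
        apply Real.one_le_exp
        have : 0 < Real.log (9 / 8) := by linarith
        nlinarith
      · positivity
    rw [← Finset.sum_mul] at h1
    refine h1.trans ?_
    have h2 := upper T (1 / 8) (by norm_num)
    have h3 := prod_le_exp T (1 / 8) (by norm_num)
    have h4 : Real.exp (1 / 8 * ∑ p ∈ PP T, (1 : ℝ) / p) ≤ A₁ * Real.exp (1 / 8 * L) := by
      rw [hA₁, ← Real.exp_add]
      apply Real.exp_le_exp.2
      linarith
    calc (∑ n ∈ Icc 1 T, (1 + 1 / 8 : ℝ) ^ n.primeFactors.card) *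
          Real.exp (-(5 / 4 * L * Real.log (9 / 8))) ≤
          (T * (A₁ * Real.exp (1 / 8 * L))) * Real.exp (-(5 / 4 * L * (1 / 9))) := by
          apply mul_le_mul
          · exact h2.trans (mul_le_mul_of_nonneg_left (h3.trans h4) hT0.le)
          · apply Real.exp_le_exp.2
            have : 5 / 4 * L * (1 / 9) ≤ 5 / 4 * L * Real.log (9 / 8) :=
              mul_le_mul_of_nonneg_left hlg (by positivity)
            linarith
          · exact (Real.exp_pos _).le
          · positivity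
      _ = A₁ * T * (Real.exp (1 / 8 * L) * Real.exp (-(5 / 4 * L * (1 / 9)))) := by ring
      _ = A₁ * T * Real.exp (-(1 / 72) * L) := by
          rw [← Real.exp_add]
          congr 2
          ring
  -- lower tail
  have hlo : (((Icc 1 T).filter (fun n => (n.primeFactors.card : ℝ) < 3 / 4 * L)).card : ℝ) ≤
      A₂ * T * Real.exp (-(1 / 72) * L) := by
    have hlg : Real.log (8 / 7) ≤ (1 : ℝ) / 7 := by
      have := Real.log_le_sub_one_of_pos (by norm_num : (0 : ℝ) < 8 / 7)
      linarith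
    have hlg0 : 0 < Real.log (8 / 7) := Real.log_pos (by norm_num)
    have h1 : (((Icc 1 T).filter (fun n => (n.primeFactors.card : ℝ) < 3 / 4 * L)).card : ℝ) ≤
        ∑ n ∈ Icc 1 T, (7 / 8 : ℝ) ^ n.primeFactors.card *
          Real.exp (3 / 4 * L * Real.log (8 / 7)) := by
      rw [Finset.card_eq_sum_ones]
      push_cast
      rw [Finset.sum_filter]
      refine Finset.sum_le_sum ?_
      intro n _
      split_ifs with h
      · have e : (7 / 8 : ℝ) ^ n.primeFactors.card =
            Real.exp (-(n.primeFactors.card * Real.log (8 / 7))) := by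
          rw [Real.exp_neg, Real.exp_nat_mul, Real.exp_log (by norm_num), ← inv_pow]
          norm_num
        rw [e, ← Real.exp_add]
        apply Real.one_le_exp
        nlinarith
      · positivity
    rw [← Finset.sum_mul] at h1
    refine h1.trans ?_
    have h2 := lower T (by omega) (7 / 8) (by norm_num) (by norm_num)
    have h2' := log_sum T (7 / 8) (by norm_num) (by norm_num)
    have h3 := prod_le_exp T (7 / 8) (by norm_num)
    have h4 : Real.exp (7 / 8 * ∑ p ∈ PP T, (1 : ℝ) / p) ≤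
        Real.exp (7 / 8 * C₀) * Real.exp (7 / 8 * L) := by
      rw [← Real.exp_add]
      apply Real.exp_le_exp.2
      linarith
    have h5 : (∑ n ∈ Icc 1 T, (7 / 8 : ℝ) ^ n.primeFactors.card) * Real.log T ≤
        A₂ * T * Real.exp (7 / 8 * L) := by
      refine h2.trans ?_
      have h6 : ∑ m ∈ Icc 1 T, (7 / 8 : ℝ) ^ m.primeFactors.card / (m : ℝ) ≤
          Z2 * (Real.exp (7 / 8 * C₀) * Real.exp (7 / 8 * L)) :=
        h2'.trans (mul_le_mul_of_nonneg_left (h3.trans h4) hZ20)
      calc (1 + (Real.log 4 + 4)) * T * ∑ m ∈ Icc 1 T, (7 / 8 : ℝ) ^ m.primeFactors.card / (m : ℝ)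
          ≤ (1 + (Real.log 4 + 4)) * T * (Z2 * (Real.exp (7 / 8 * C₀) * Real.exp (7 / 8 * L))) :=
            mul_le_mul_of_nonneg_left h6 (by positivity)
        _ = _ := by rw [hA₂]; ring
    have h7 : ∑ n ∈ Icc 1 T, (7 / 8 : ℝ) ^ n.primeFactors.card ≤
        A₂ * T * Real.exp (-(1 / 8) * L) := by
      rw [← le_div_iff₀ hlog0] at h5
      refine h5.trans (le_of_eq ?_)
      have h8 : Real.exp (7 / 8 * L) = Real.exp (-(1 / 8) * L) * Real.exp L := by
        rw [← Real.exp_add]
        congr 1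
        ring
      rw [← hexpL, div_eq_iff (Real.exp_pos _).ne', h8]
      ring
    calc (∑ n ∈ Icc 1 T, (7 / 8 : ℝ) ^ n.primeFactors.card) *
          Real.exp (3 / 4 * L * Real.log (8 / 7)) ≤
          (A₂ * T * Real.exp (-(1 / 8) * L)) * Real.exp (3 / 4 * L * (1 / 7)) := by
          apply mul_le_mul h7
          · apply Real.exp_le_exp.2
            exact mul_le_mul_of_nonneg_left hlg (by positivity)
          · exact (Real.exp_pos _).le
          · positivity
      _ = A₂ * T * (Real.exp (-(1 / 8) * L) * Real.exp (3 / 4 * L * (1 / 7))) := by ring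
      _ ≤ A₂ * T * Real.exp (-(1 / 72) * L) := by
          apply mul_le_mul_of_nonneg_left _ (by positivity)
          rw [← Real.exp_add]
          apply Real.exp_le_exp.2
          nlinarith
  have hsub : (Icc 1 T).filter (fun n => ¬ Typ T n) ⊆
      (Icc 1 T).filter (fun n => 5 / 4 * L < (n.primeFactors.card : ℝ)) ∪
        (Icc 1 T).filter (fun n => (n.primeFactors.card : ℝ) < 3 / 4 * L) := by
    intro n hn
    rw [Finset.mem_filter] at hn
    rw [Finset.mem_union, Finset.mem_filter, Finset.mem_filter]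
    by_cases h : 3 / 4 * L ≤ (n.primeFactors.card : ℝ)
    · left
      refine ⟨hn.1, ?_⟩
      by_contra hcon
      push Not at hcon
      exact hn.2 ⟨h, hcon⟩
    · right
      push Not at h
      exact ⟨hn.1, h⟩
  have hc := (Finset.card_le_card hsub).trans (Finset.card_union_le _ _)
  have hc' : (((Icc 1 T).filter (fun n => ¬ Typ T n)).card : ℝ) ≤
      (((Icc 1 T).filter (fun n => 5 / 4 * L < (n.primeFactors.card : ℝ))).card : ℝ) +
      (((Icc 1 T).filter (fun n => (n.primeFactors.card : ℝ) < 3 / 4 * L)).card : ℝ) := by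
    exact_mod_cast hc
  calc _ ≤ _ := hc'
    _ ≤ A₁ * T * Real.exp (-(1 / 72) * L) + A₂ * T * Real.exp (-(1 / 72) * L) := add_le_add hup hlo
    _ = _ := by ring

end Pool.Agent.L7h50.AM
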