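import Pool.Agent.L7h72.AM.Stm2
import Pool.Agent.L7h50.AM.Rk

/-!
Project AM (MP_157626_nt), part BAD: the curves with an excess are rare.
-/

set_option autoImplicit false

namespace Pool.Agent.L7h50.AM

open Finset Pool.Agent.L7h72.AM2 Pool.Agent.L7h19.RH Pool.Agent.W307.RT Pool.Agent.W262.RK

/-- the roots in another order -/
theorem perm {r : ℤ × ℤ × ℤ} {c : ℤ × ℤ} (h : RT3 c r) {e1 e2 e3 : ℤ} (hs : e1 + e2 + e3 = 0)
    (hA : e1 * e2 + e1 * e3 + e2 * e3 = c.1) (hB : -(e1 * e2 * e3) = c.2) (P : ℤ → Prop)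
    (hP : ∀ n, P n → P (-n)) (h1 : P (r.2.1 - r.1)) (h2 : P (r.2.2 - r.1))
    (h3 : P (r.2.2 - r.2.1)) : P (e1 - e2) ∧ P (e1 - e3) ∧ P (e2 - e3) := by
  obtain ⟨r1, r2, r3⟩ := r
  obtain ⟨-, -, hs', hA', hB'⟩ := h
  simp only at hs' hA' hB' h1 h2 h3
  have key : ∀ n : ℤ, (n = r2 - r1 ∨ n = r1 - r2 ∨ n = r3 - r1 ∨ n = r1 - r3 ∨ n = r3 - r2 ∨
      n = r2 - r3) → P n := by
    rintro n (h | h | h | h | h | h)
    · rw [h]; exact h1
    · have := hP _ h1
      rw [h]
      rwa [neg_sub] at this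
    · rw [h]; exact h2
    · have := hP _ h2
      rw [h]
      rwa [neg_sub] at this
    · rw [h]; exact h3
    · have := hP _ h3
      rw [h]
      rwa [neg_sub] at this
  have k1 : (e1 - r1) * ((e1 - r2) * (e1 - r3)) = 0 := by
    linear_combination e1 ^ 2 * hs - e1 * hA - hB - e1 * hA' - hB' - e1 ^ 2 * hs'
  obtain rfl : e3 = -e1 - e2 := by linarith
  obtain rfl : r3 = -r1 - r2 := by linarith
  rcases mul_eq_zero.1 k1 with k | k
  · have e : e1 = r1 := by linarith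
    subst e
    have k2 : (e2 - r2) * (e2 - (-e1 - r2)) = 0 := by linear_combination -hA - hA'
    rcases mul_eq_zero.1 k2 with k | k
    · refine ⟨key _ ?_, key _ ?_, key _ ?_⟩ <;> omega
    · refine ⟨key _ ?_, key _ ?_, key _ ?_⟩ <;> omega
  · rcases mul_eq_zero.1 k with k | k
    · have e : e1 = r2 := by linarith
      subst e
      have k2 : (e2 - r1) * (e2 - (-r1 - e1)) = 0 := by linear_combination -hA - hA'
      rcases mul_eq_zero.1 k2 with k | k
      · refine ⟨key _ ?_, key _ ?_, key _ ?_⟩ <;> omega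
      · refine ⟨key _ ?_, key _ ?_, key _ ?_⟩ <;> omega
    · have e : e1 = -r1 - r2 := by linarith
      subst e
      have k2 : (e2 - r1) * (e2 - r2) = 0 := by linear_combination -hA - hA'
      rcases mul_eq_zero.1 k2 with k | k
      · refine ⟨key _ ?_, key _ ?_, key _ ?_⟩ <;> omega
      · refine ⟨key _ ?_, key _ ?_, key _ ?_⟩ <;> omega

theorem IB_mem {x : ℤ × ℤ} (h : 0 < IB x) : IB x ∈ IBset x := by
  unfold IB at h ⊢
  by_cases hb : BddAbove (IBset x)
  · by_cases hn : (IBset x).Nonempty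
    · exact Nat.sSup_mem hn hb
    · rw [Set.not_nonempty_iff_eq_empty] at hn
      rw [hn] at h
      simp at h
  · rw [Nat.sSup_of_not_bddAbove hb] at h
    omega

theorem spl_le (a b : ℤ) : spl a b ≤ om a := by
  unfold spl om
  exact Finset.card_le_card (Finset.filter_subset _ _)

/-- one of the three differences is atypical -/
theorem atyp {T H : ℕ} (hT : 3 ≤ T) {x : ℤ × ℤ} (hx : x ∈ Cv 2 H) (hI : 0 < IB x) :
    ∃ a b : ℤ, FF x = (a, b) ∧ 0 < a ∧ a < b ∧
      (¬ Typ T a.natAbs ∨ ¬ Typ T b.natAbs ∨ ¬ Typ T (b - a).natAbs) := by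
  have hx' := hx
  simp only [Cv, Finset.mem_filter] at hx'
  obtain ⟨-, hD, -, -, -, hHT⟩ := hx'
  obtain ⟨r, hr, hF⟩ := FF_spec (roots3 hD hHT)
  change RT3 x r at hr
  change FF x = _ at hF
  refine ⟨_, _, hF, by linarith [hr.1], by linarith [hr.2.1], ?_⟩
  by_contra hcon
  push Not at hcon
  obtain ⟨c1, c2, c3⟩ := hcon
  obtain ⟨e1, e2, e3, hs, hA, hB, hn⟩ := IB_mem hI
  have c3' : Typ T (r.2.2 - r.2.1).natAbs := by
    have : r.2.2 - r.1 - (r.2.1 - r.1) = r.2.2 - r.2.1 := by ring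
    rwa [this] at c3
  obtain ⟨p1, p2, p3⟩ := perm hr hs hA hB (fun n => Typ T n.natAbs)
    (fun n hn => by rwa [Int.natAbs_neg]) c1 c2 c3'
  have hsp := spl_le (e2 - e3) (e2 - e1)
  have hlt : om (e1 - e2) + om (e1 - e3) < om (e2 - e3) := by omega
  have q1 := p1.1
  have q2 := p2.1
  have q3 := p3.2
  have hlt' : ((om (e1 - e2) : ℕ) : ℝ) + ((om (e1 - e3) : ℕ) : ℝ) < ((om (e2 - e3) : ℕ) : ℝ) := by
    exact_mod_cast hlt
  unfold om at hlt'
  have hL0 : 0 ≤ Real.log (Real.log T) := by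
    apply Real.log_nonneg
    have hT3 : (3 : ℝ) ≤ T := by exact_mod_cast hT
    rw [Real.le_log_iff_exp_le (by linarith)]
    have := Real.exp_one_lt_d9
    linarith
  linarith

open Classical in
theorem count {T H : ℕ} (hT : 3 ≤ T)
    (hb : ∀ x ∈ Cv 2 H, (FF x).1.natAbs ≤ T ∧ (FF x).2.natAbs ≤ T) :
    ((Cv 2 H).filter (fun x => 0 < IB x)).card ≤
      3 * (((Icc 1 T).filter (fun n => ¬ Typ T n)).card * T) := by
  set B := (Icc 1 T).filter (fun n => ¬ Typ T n) with hB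
  set U := (B ×ˢ Icc 1 T) ∪ ((Icc 1 T ×ˢ B) ∪
    (B ×ˢ Icc 1 T).image (fun p : ℕ × ℕ => (p.2, p.2 + p.1))) with hU
  have hcard : U.card ≤ 3 * (B.card * T) := by
    have h1 : (B ×ˢ Icc 1 T).card = B.card * T := by
      rw [Finset.card_product, Nat.card_Icc, Nat.add_sub_cancel]
    have h2 : (Icc 1 T ×ˢ B).card = B.card * T := by
      rw [Finset.card_product, Nat.card_Icc, Nat.add_sub_cancel, mul_comm]
    have h3 := Finset.card_image_le (s := B ×ˢ Icc 1 T) (f := fun p : ℕ × ℕ => (p.2, p.2 + p.1))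
    have h4 := Finset.card_union_le (B ×ˢ Icc 1 T) ((Icc 1 T ×ˢ B) ∪
      (B ×ˢ Icc 1 T).image (fun p : ℕ × ℕ => (p.2, p.2 + p.1)))
    have h5 := Finset.card_union_le (Icc 1 T ×ˢ B)
      ((B ×ˢ Icc 1 T).image (fun p : ℕ × ℕ => (p.2, p.2 + p.1)))
    rw [h1] at h3 h4
    rw [h2] at h5
    rw [← hU] at h4
    omega
  refine le_trans ?_ hcard
  apply Finset.card_le_card_of_injOn (fun x => ((FF x).1.natAbs, (FF x).2.natAbs))
  · intro x hx
    rw [Finset.mem_coe, Finset.mem_filter] at hx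
    obtain ⟨a, b, hF, ha, hab, hty⟩ := atyp hT hx.1 hx.2
    obtain ⟨hb1, hb2⟩ := hb x hx.1
    rw [hF] at hb1 hb2
    simp only at hb1 hb2
    rw [Finset.mem_coe]
    simp only [hF, hU, Finset.mem_union, Finset.mem_product, Finset.mem_image, hB,
      Finset.mem_filter, Finset.mem_Icc]
    rcases hty with h | h | h
    · left
      exact ⟨⟨⟨by omega, hb1⟩, h⟩, by omega, hb2⟩
    · right; left
      exact ⟨⟨by omega, hb1⟩, ⟨by omega, hb2⟩, h⟩
    · right; right
      refine ⟨((b - a).natAbs, a.natAbs), ⟨⟨⟨?_, ?_⟩, h⟩, ?_, ?_⟩, ?_⟩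
      · simp only; omega
      · simp only; omega
      · simp only; omega
      · simp only; omega
      · simp only [Prod.mk.injEq, true_and]
        omega
  · intro x hx x' hx' hxx
    rw [Finset.mem_coe, Finset.mem_filter] at hx hx'
    obtain ⟨a, b, hF, ha, hab, -⟩ := atyp hT hx.1 hx.2
    obtain ⟨a', b', hF', ha', hab', -⟩ := atyp hT hx'.1 hx'.2
    apply (par2 H).1 (Finset.mem_coe.2 hx.1) (Finset.mem_coe.2 hx'.1)
    simp only [hF, hF', Prod.mk.injEq] at hxx
    rw [hF, hF', Prod.mk.injEq]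
    constructor <;> omega

/-- [BAD] -/
theorem s_BAD : S_BAD := by
  classical
  obtain ⟨C₀, hC₀, hrare⟩ := rare
  obtain ⟨c, C1, T0, hc, hlow⟩ := low2
  set D := 128 * C1 + 1 with hD
  have hD1 : 1 ≤ D := by omega
  set M : ℕ := D * (T0 + 3) with hM
  have hM3 : 3 ≤ M := by
    rw [hM]
    calc 3 ≤ T0 + 3 := by omega
      _ ≤ D * (T0 + 3) := Nat.le_mul_of_pos_left _ (by omega)
  set A₁ : ℝ := Real.log ((M : ℝ) ^ 6) ^ (1 / 72 : ℝ) with hA₁
  set A₂ : ℝ := (3 * C₀ * (2 * (D : ℝ)) ^ 2 / c) * 12 with hA₂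
  have hA₁0 : 0 ≤ A₁ := by
    apply Real.rpow_nonneg
    apply Real.log_nonneg
    have : (1 : ℝ) ≤ M := by
      have : 1 ≤ M := by omega
      exact_mod_cast this
    exact one_le_pow₀ this
  have hA₂0 : 0 ≤ A₂ := by positivity
  refine ⟨1 / 72, A₁ + A₂, by norm_num, ?_⟩
  intro H hH
  set K := (Cv 2 H).card with hK
  have hH3 : (3 : ℝ) ≤ H := by exact_mod_cast hH
  have hH0 : (0 : ℝ) < H := by linarith
  have hlogH : 0 < Real.log H := Real.log_pos (by linarith)
  have hpH : 0 < Real.log H ^ (1 / 72 : ℝ) := Real.rpow_pos_of_pos hlogH _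
  rw [le_div_iff₀ hpH]
  have hK0 : (0 : ℝ) ≤ K := Nat.cast_nonneg _
  set T := Nat.findGreatest (fun t => t ^ 6 ≤ 128 * H) (128 * H) with hTdef
  have hle : ∀ x : ℕ, x ^ 6 ≤ 128 * H → x ≤ T := by
    intro x hx
    apply Nat.le_findGreatest
    · exact (Nat.le_self_pow (by omega) x).trans hx
    · exact hx
  have hTk : T ^ 6 ≤ 128 * H := by
    have : (fun t => t ^ 6 ≤ 128 * H) T :=
      Nat.findGreatest_spec (P := fun t => t ^ 6 ≤ 128 * H) (Nat.zero_le _)
        (by rw [zero_pow (by omega)]; exact Nat.zero_le _)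
    exact this
  have hT1k : H < (T + 1) ^ 6 := by
    by_contra hcon
    push Not at hcon
    have := hle (T + 1) (by omega)
    omega
  have hxT : ∀ x ∈ Cv 2 H, (FF x).1.natAbs ≤ T ∧ (FF x).2.natAbs ≤ T := fun x hx => by
    obtain ⟨_, _, _, h1, h2, _⟩ := (par2 H).2 x hx
    exact ⟨hle _ h1, hle _ h2⟩
  rcases Nat.lt_or_ge T M with hlt | hge
  · have h1 : (((Cv 2 H).filter (fun x => 0 < IB x)).card : ℝ) ≤ K := by
      exact_mod_cast Finset.card_le_card (Finset.filter_subset _ _)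
    have h2 : Real.log H ^ (1 / 72 : ℝ) ≤ A₁ := by
      rw [hA₁]
      apply Real.rpow_le_rpow hlogH.le _ (by norm_num)
      apply Real.log_le_log hH0
      have : H ≤ M ^ 6 := hT1k.le.trans (Nat.pow_le_pow_left (by omega) 6)
      exact_mod_cast this
    calc _ ≤ (K : ℝ) * A₁ := mul_le_mul h1 h2 hpH.le hK0
      _ ≤ (A₁ + A₂) * K := by nlinarith
  · have hT3 : 3 ≤ T := hM3.trans hge
    have hTr : (3 : ℝ) ≤ T := by exact_mod_cast hT3
    have hlogT : 0 < Real.log T := Real.log_pos (by linarith)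
    have h1 := count hT3 hxT
    have h2 := hrare T hT3
    have h3 : (((Cv 2 H).filter (fun x => 0 < IB x)).card : ℝ) ≤
        3 * ((C₀ * T * Real.log T ^ (-(1 / 72) : ℝ)) * T) := by
      have h4 : (((Cv 2 H).filter (fun x => 0 < IB x)).card : ℝ) ≤
          3 * ((((Icc 1 T).filter (fun n => ¬ Typ T n)).card : ℝ) * T) := by exact_mod_cast h1
      refine h4.trans ?_
      apply mul_le_mul_of_nonneg_left _ (by norm_num)
      exact mul_le_mul_of_nonneg_right h2 (by linarith)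
    -- comparison of the logarithms
    have h5 : Real.log H ≤ 12 * Real.log T := by
      have g1 : Real.log H ≤ Real.log (((T : ℝ) ^ 2) ^ 6) := by
        apply Real.log_le_log hH0
        have g2 : (H : ℝ) ≤ ((T : ℝ) + 1) ^ 6 := by exact_mod_cast hT1k.le
        refine g2.trans ?_
        apply pow_le_pow_left₀ (by linarith)
        nlinarith
      rw [Real.log_pow, Real.log_pow] at g1
      push_cast at g1
      linarith
    have h6 : Real.log H ^ (1 / 72 : ℝ) ≤ 12 * Real.log T ^ (1 / 72 : ℝ) := by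
      calc Real.log H ^ (1 / 72 : ℝ) ≤ (12 * Real.log T) ^ (1 / 72 : ℝ) :=
            Real.rpow_le_rpow hlogH.le h5 (by norm_num)
        _ = (12 : ℝ) ^ (1 / 72 : ℝ) * Real.log T ^ (1 / 72 : ℝ) :=
            Real.mul_rpow (by norm_num) hlogT.le
        _ ≤ 12 * Real.log T ^ (1 / 72 : ℝ) := by
            apply mul_le_mul_of_nonneg_right _ (Real.rpow_nonneg hlogT.le _)
            calc (12 : ℝ) ^ (1 / 72 : ℝ) ≤ (12 : ℝ) ^ (1 : ℝ) :=
                  Real.rpow_le_rpow_of_exponent_le (by norm_num) (by norm_num)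
              _ = 12 := Real.rpow_one _
    have h7 : Real.log T ^ (-(1 / 72) : ℝ) * Real.log T ^ (1 / 72 : ℝ) = 1 := by
      rw [← Real.rpow_add hlogT]
      norm_num
    -- the lower bound for the number of curves
    set T' := T / D with hT'
    have hT'0 : T0 + 3 ≤ T' := by
      rw [hT', Nat.le_div_iff_mul_le hD1, mul_comm]
      exact hge
    have g2 : T' * D ≤ T := Nat.div_mul_le_self T D
    have g3 : C1 * T' ^ 6 ≤ H := by
      have a1 : (T' * D) ^ 6 ≤ 128 * H := (Nat.pow_le_pow_left g2 6).trans hTk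
      rw [mul_pow] at a1
      have a2 : D ≤ D ^ 6 := Nat.le_self_pow (by omega) D
      have a3 : T' ^ 6 * (128 * C1) ≤ 128 * H :=
        (Nat.mul_le_mul_left _ (by omega : 128 * C1 ≤ D ^ 6)).trans a1
      have a4 : 128 * (C1 * T' ^ 6) ≤ 128 * H := by
        calc 128 * (C1 * T' ^ 6) = T' ^ 6 * (128 * C1) := by ring
          _ ≤ _ := a3
      exact Nat.le_of_mul_le_mul_left a4 (by omega)
    have g4 := hlow T' H (by omega) g3
    have g5 : T ≤ 2 * D * T' := by
      have a1 : T < D * (T' + 1) := by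
        rw [mul_comm]
        exact Nat.lt_mul_of_div_lt (by rw [← hT']; omega) hD1
      have a2 : D * (T' + 1) ≤ 2 * D * T' := by nlinarith
      omega
    have g6 : (T : ℝ) ≤ 2 * D * T' := by exact_mod_cast g5
    have g7 : (T : ℝ) ^ 2 ≤ (2 * (D : ℝ)) ^ 2 / c * K := by
      calc (T : ℝ) ^ 2 ≤ (2 * D * T') ^ 2 := pow_le_pow_left₀ (Nat.cast_nonneg T) g6 2
        _ = (2 * (D : ℝ)) ^ 2 / c * (c * (T' : ℝ) ^ 2) := by
          field_simp
        _ ≤ (2 * (D : ℝ)) ^ 2 / c * K := mul_le_mul_of_nonneg_left g4 (by positivity)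
    have hr0 : 0 ≤ Real.log T ^ (-(1 / 72) : ℝ) := Real.rpow_nonneg hlogT.le _
    calc (((Cv 2 H).filter (fun x => 0 < IB x)).card : ℝ) * Real.log H ^ (1 / 72 : ℝ) ≤
          (3 * ((C₀ * T * Real.log T ^ (-(1 / 72) : ℝ)) * T)) *
            (12 * Real.log T ^ (1 / 72 : ℝ)) := mul_le_mul h3 h6 hpH.le (by positivity)
      _ = 36 * C₀ * (T : ℝ) ^ 2 *
            (Real.log T ^ (-(1 / 72) : ℝ) * Real.log T ^ (1 / 72 : ℝ)) := by ring
      _ = 36 * C₀ * (T : ℝ) ^ 2 := by rw [h7, mul_one]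
      _ ≤ 36 * C₀ * ((2 * (D : ℝ)) ^ 2 / c * K) := mul_le_mul_of_nonneg_left g7 (by positivity)
      _ = A₂ * K := by rw [hA₂]; ring
      _ ≤ (A₁ + A₂) * K := by nlinarith

end Pool.Agent.L7h50.AM
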